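import Pool.Agent.Q88.KEC.Chain
import Mathlib.GroupTheory.Coprod.Basic
import Mathlib.GroupTheory.FreeGroup.Basic
import Mathlib.SetTheory.Cardinal.Free
import Mathlib.Tactic.Group

/-! # `κ`-existentially closed groups with few automorphisms -/

namespace Pool.Agent.Results.MP_cb6149_al.FewAutomorphisms

universe u

open Cardinal Pool.Agent.Q88.KEC

/-- The assignment `s : X → H` solves the system `S` of equations (`(w, true)` stands for
`w = 1`) and inequations (`(w, false)` stands for `w ≠ 1`) over `G`, where `G` is mapped to `H`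
by `f`. -/
def Solves {G H : Type u} [Group G] [Group H] (f : G →* H) {X : Type u}
    (S : Set (Monoid.Coprod G (FreeGroup X) × Bool)) (s : X → H) : Prop :=
  ∀ p ∈ S, (Monoid.Coprod.lift f (FreeGroup.lift s) p.1 = 1 ↔ p.2 = true)

/-- `G` is `κ`-existentially closed. -/
def KExistentiallyClosed (κ : Cardinal.{u}) (G : Type u) [Group G] : Prop :=
  ∀ (X : Type u) (S : Set (Monoid.Coprod G (FreeGroup X) × Bool)), #S < κ →
    (∃ (H : Type u) (_ : Group H) (f : G →* H), Function.Injective f ∧ ∃ s : X → H, Solves f S s) →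
    ∃ s : X → G, Solves (MonoidHom.id G) S s

theorem coef {G H X : Type u} [Group G] [Group H] (f : G →* H) (s : X → H)
    (w : Monoid.Coprod G (FreeGroup X)) : ∃ (F : Set G) (V : Set X), F.Finite ∧ V.Finite ∧
      ∀ (K : Subgroup H) (θ : K →* G) (s' : X → G), (∀ g ∈ F, ∃ h : f g ∈ K, θ ⟨f g, h⟩ = g) →
      (∀ x ∈ V, ∃ h : s x ∈ K, θ ⟨s x, h⟩ = s' x) →
      ∃ h : Monoid.Coprod.lift f (FreeGroup.lift s) w ∈ K,
        θ ⟨_, h⟩ = Monoid.Coprod.lift (MonoidHom.id G) (FreeGroup.lift s') w := by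
  induction w using Monoid.Coprod.induction_on with
  | inl g =>
    refine ⟨{g}, ∅, Set.finite_singleton g, Set.finite_empty, fun K θ s' hF _ => ?_⟩
    obtain ⟨h, hh⟩ := hF g rfl
    simp only [Monoid.Coprod.lift_apply_inl]
    exact ⟨h, hh⟩
  | inr v =>
    induction v using FreeGroup.induction_on with
    | C1 =>
      refine ⟨∅, ∅, Set.finite_empty, Set.finite_empty, fun K θ s' _ _ => ?_⟩
      simp only [map_one]
      exact ⟨K.one_mem, map_one θ⟩
    | of x =>
      refine ⟨∅, {x}, Set.finite_empty, Set.finite_singleton x, fun K θ s' _ hV => ?_⟩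
      obtain ⟨h, hh⟩ := hV x rfl
      simp only [Monoid.Coprod.lift_apply_inr, FreeGroup.lift_apply_of]
      exact ⟨h, hh⟩
    | inv_of x ih =>
      obtain ⟨F, V, hF, hV, h⟩ := ih
      refine ⟨F, V, hF, hV, fun K θ s' h₁ h₂ => ?_⟩
      obtain ⟨h₃, h₄⟩ := h K θ s' h₁ h₂
      simp only [map_inv]
      refine ⟨K.inv_mem h₃, ?_⟩
      rw [← h₄]
      exact map_inv θ ⟨_, h₃⟩
    | mul x y ihx ihy =>
      obtain ⟨F, V, hF, hV, h⟩ := ihx
      obtain ⟨F', V', hF', hV', h'⟩ := ihy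
      refine ⟨F ∪ F', V ∪ V', hF.union hF', hV.union hV', fun K θ s' h₁ h₂ => ?_⟩
      obtain ⟨h₃, h₄⟩ := h K θ s' (fun g hg => h₁ g (Or.inl hg)) (fun x hx => h₂ x (Or.inl hx))
      obtain ⟨h₅, h₆⟩ := h' K θ s' (fun g hg => h₁ g (Or.inr hg)) (fun x hx => h₂ x (Or.inr hx))
      simp only [map_mul]
      refine ⟨K.mul_mem h₃ h₅, ?_⟩
      rw [← h₄, ← h₆]
      exact map_mul θ ⟨_, h₃⟩ ⟨_, h₅⟩
  | mul x y ihx ihy =>
    obtain ⟨F, V, hF, hV, h⟩ := ihx
    obtain ⟨F', V', hF', hV', h'⟩ := ihy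
    refine ⟨F ∪ F', V ∪ V', hF.union hF', hV.union hV', fun K θ s' h₁ h₂ => ?_⟩
    obtain ⟨h₃, h₄⟩ := h K θ s' (fun g hg => h₁ g (Or.inl hg)) (fun x hx => h₂ x (Or.inl hx))
    obtain ⟨h₅, h₆⟩ := h' K θ s' (fun g hg => h₁ g (Or.inr hg)) (fun x hx => h₂ x (Or.inr hx))
    simp only [map_mul]
    refine ⟨K.mul_mem h₃ h₅, ?_⟩
    rw [← h₄, ← h₆]
    exact map_mul θ ⟨_, h₃⟩ ⟨_, h₅⟩

theorem exists_small {G : Type u} [Group G] {c : Cardinal.{u}} (hc : ℵ₀ ≤ c) (C : Set G)
    (hC : #C ≤ c) : ∃ A : Subgroup G, C ⊆ A ∧ #A ≤ c := by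
  let φ : FreeGroup (Option C) →* G := FreeGroup.lift fun o => o.elim 1 Subtype.val
  refine ⟨φ.range, ?_, ?_⟩
  · intro g hg
    exact ⟨FreeGroup.of (some ⟨g, hg⟩), FreeGroup.lift_apply_of⟩
  · refine (mk_range_le (f := φ)).trans ?_
    rw [mk_freeGroup, mk_option]
    refine max_le ?_ hc
    exact (add_le_add_left hC 1).trans (add_one_eq hc).le

theorem exists_embed {K M : Type u} [Group K] (h : #K ≤ #M) :
    ∃ ψ : K →* Equiv.Perm M, Function.Injective ψ := by
  obtain ⟨ι⟩ := h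
  refine ⟨(Equiv.Perm.viaEmbeddingHom ι).comp (MulAction.toPermHom K K), ?_⟩
  refine (Equiv.Perm.viaEmbeddingHom_injective ι).comp ?_
  exact MulAction.toPerm_injective

section

variable {I M N W : Type u} [LinearOrder W] [WellFoundedLT W] (hI : ℵ₀ ≤ #I)
    (hM : #M = 2 ^ #I) (hN : #(Equiv.Perm M) < #N) (hW : ∀ j : W, #(Set.Iio j) ≤ #I)
    (hW' : #I < #W)

include hI hM hN hW hW'

theorem mem_G {g : Equiv.Perm N} (hg : g ∈ (⨆ j, chain I M N W j : Subgroup (Equiv.Perm N))) :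
    ∃ j, g ∈ chain I M N W j := by
  have : Nonempty W := by
    rw [← mk_ne_zero_iff]
    intro h
    rw [h] at hW'
    exact absurd hW' (not_lt.mpr zero_le)
  rwa [Subgroup.mem_iSup_of_directed (chain_mono hI hM hN hW).directed_le] at hg

theorem kec (G : Subgroup (Equiv.Perm N)) (hG : G = ⨆ j, chain I M N W j) :
    KExistentiallyClosed (Order.succ #I) G := by
  classical
  intro X S hS ⟨H, _, f, hf, s, hs⟩
  have hS' : #S ≤ #I := Order.lt_succ_iff.mp hS
  have hmono := chain_mono hI hM hN hW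
  have hgood := chain_good hI hM hN hW
  have hmemG : ∀ g ∈ G, ∃ j, g ∈ chain I M N W j := fun g hg =>
    mem_G hI hM hN hW hW' (by rwa [hG] at hg)
  have hGj : ∀ j, chain I M N W j ≤ G := fun j => by rw [hG]; exact le_iSup _ j
  choose F V hF hV hFV using fun w => coef f s w
  -- the coefficients and the variables
  obtain ⟨C, hC⟩ : ∃ C : Set G, C = ⋃ p : S, F p.1.1 := ⟨_, rfl⟩
  obtain ⟨VV, hVV⟩ : ∃ VV : Set X, VV = ⋃ p : S, V p.1.1 := ⟨_, rfl⟩
  have hCcard : #C ≤ #I := by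
    rw [hC]
    refine (mk_iUnion_le _).trans ?_
    have h3 : ⨆ p : S, #(F p.1.1) ≤ #I :=
      ciSup_le' fun p => ((hF p.1.1).lt_aleph0.le).trans hI
    exact (mul_le_mul' hS' h3).trans (mul_eq_self hI).le
  have hVcard : #VV ≤ #I := by
    rw [hVV]
    refine (mk_iUnion_le _).trans ?_
    have h3 : ⨆ p : S, #(V p.1.1) ≤ #I :=
      ciSup_le' fun p => ((hV p.1.1).lt_aleph0.le).trans hI
    exact (mul_le_mul' hS' h3).trans (mul_eq_self hI).le
  obtain ⟨A, hCA, hA⟩ := exists_small hI C hCcard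
  obtain ⟨K, hK, hKcard⟩ := exists_small hI ((f '' (A : Set G)) ∪ (s '' VV)) (by
    refine (mk_union_le _ _).trans ?_
    have h1 : #(f '' (A : Set G)) ≤ #I := mk_image_le.trans hA
    have h2 : #(s '' VV) ≤ #I := mk_image_le.trans hVcard
    exact (add_le_add h1 h2).trans (add_eq_self hI).le)
  -- a stage containing all coefficients
  choose k hk using fun a : A => hmemG (a : G) (a : G).2
  obtain ⟨j, hj⟩ := bounded hI hW hW' (Set.range k) (mk_range_le.trans hA)
  have hAj : ∀ a : A, ((a : G) : Equiv.Perm N) ∈ chain I M N W j := fun a =>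
    hmono (hj (k a) ⟨a, rfl⟩).le (hk a)
  obtain ⟨j', hj'⟩ := bounded hI hW hW' {j} (by rw [mk_singleton]; exact one_le_aleph0.trans hI)
  have hjj' : j < j' := hj' j rfl
  have hjP : chain I M N W j ≤ ⨆ i : Set.Iio j', chain I M N W i.1 :=
    le_iSup (fun i : Set.Iio j' => chain I M N W i.1) ⟨j, hjj'⟩
  obtain ⟨e⟩ := (hgood j).iso
  have hIM : #I ≤ #M := by rw [hM]; exact (cantor _).le
  obtain ⟨ψ, hψ⟩ := exists_embed (K := K) (M := M) (hKcard.trans hIM)
  let ψj : K →* Equiv.Perm N := (chain I M N W j).subtype.comp (e.symm.toMonoidHom.comp ψ)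
  have hψj : Function.Injective ψj :=
    (Subgroup.subtype_injective _).comp (e.symm.injective.comp hψ)
  have hψjmem : ∀ x, ψj x ∈ chain I M N W j := fun x => (e.symm (ψ x)).2
  let fA : A →* K := (f.comp A.subtype).codRestrict K fun a => hK (Or.inl ⟨a, a.2, rfl⟩)
  have hfA : Function.Injective fA := by
    intro a b hab
    have h1 : f a = f b := congrArg Subtype.val hab
    exact Subtype.ext (hf h1)
  let φ₁ : A →* Equiv.Perm N := G.subtype.comp A.subtype
  obtain ⟨e', he'S, he'⟩ := (hgood j').conj A hA φ₁ (ψj.comp fA)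
    ((Subgroup.subtype_injective _).comp (Subgroup.subtype_injective _)) (hψj.comp hfA)
    (fun a => hjP (hAj a)) (fun a => hjP (hψjmem _))
  have he'G : e' ∈ G := hGj j' he'S
  let θ : K →* G := ((MulAut.conj e'⁻¹).toMonoidHom.comp ψj).codRestrict G fun x => by
    change e'⁻¹ * ψj x * e'⁻¹⁻¹ ∈ G
    exact G.mul_mem (G.mul_mem (G.inv_mem he'G) (hGj j (hψjmem x))) (G.inv_mem (G.inv_mem he'G))
  have hθ : Function.Injective θ := by
    intro x y hxy
    have h1 : (MulAut.conj e'⁻¹) (ψj x) = (MulAut.conj e'⁻¹) (ψj y) := congrArg Subtype.val hxy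
    exact hψj ((MulAut.conj e'⁻¹).injective h1)
  have hθA : ∀ a : A, θ (fA a) = a := by
    intro a
    apply Subtype.ext
    change e'⁻¹ * ψj (fA a) * e'⁻¹⁻¹ = ((a : G) : Equiv.Perm N)
    have h1 : e' * ((a : G) : Equiv.Perm N) * e'⁻¹ = ψj (fA a) := he' a
    rw [← h1]
    group
  let s' : X → G := fun x => if h : s x ∈ K then θ ⟨s x, h⟩ else 1
  refine ⟨s', fun p hp => ?_⟩
  obtain ⟨h₁, h₂⟩ := hFV p.1 K θ s' (by
    intro g hg
    have hgA : g ∈ A := hCA (by rw [hC]; exact Set.mem_iUnion.mpr ⟨⟨p, hp⟩, hg⟩)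
    exact ⟨hK (Or.inl ⟨g, hgA, rfl⟩), hθA ⟨g, hgA⟩⟩) (by
    intro x hx
    have hxK : s x ∈ K :=
      hK (Or.inr ⟨x, by rw [hVV]; exact Set.mem_iUnion.mpr ⟨⟨p, hp⟩, hx⟩, rfl⟩)
    refine ⟨hxK, ?_⟩
    change _ = if h : s x ∈ K then θ ⟨s x, h⟩ else 1
    rw [dif_pos hxK])
  rw [← h₂, ← hs p hp]
  constructor
  · intro h₃
    have h₄ := hθ (h₃.trans (map_one θ).symm)
    exact congrArg Subtype.val h₄
  · intro h₃
    have h₄ : (⟨Monoid.Coprod.lift f (FreeGroup.lift s) p.1, h₁⟩ : K) = 1 := Subtype.ext h₃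
    rw [h₄, map_one]

theorem card_G (G : Subgroup (Equiv.Perm N)) (hG : G = ⨆ j, chain I M N W j)
    (hWM : #W ≤ #M) : #G = 2 ^ #M := by
  have hMinf := inf_M hI hM
  have : Infinite M := infinite_iff.mpr hMinf
  have hgood := chain_good hI hM hN hW
  have hchain : ∀ j, #(chain I M N W j) = 2 ^ #M := by
    intro j
    obtain ⟨e⟩ := (hgood j).iso
    rw [mk_congr e.toEquiv, mk_perm_eq_two_power]
  apply le_antisymm
  · have h1 : (G : Set (Equiv.Perm N)) ⊆ ⋃ j, (chain I M N W j : Set (Equiv.Perm N)) := by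
      intro g hg
      obtain ⟨j, hj⟩ := mem_G hI hM hN hW hW' (g := g) (by rw [← hG]; exact hg)
      exact Set.mem_iUnion.mpr ⟨j, hj⟩
    refine (mk_le_mk_of_subset h1).trans ((mk_iUnion_le _).trans ?_)
    have h3 : ⨆ j : W, #(chain I M N W j : Set (Equiv.Perm N)) ≤ 2 ^ #M :=
      ciSup_le' fun j => (hchain j).le
    have h4 : #W ≤ 2 ^ #M := hWM.trans (cantor _).le
    exact (mul_le_mul' h4 h3).trans (mul_eq_self (hMinf.trans (cantor _).le)).le
  · have hne : Nonempty W := by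
      rw [← mk_ne_zero_iff]
      intro h
      rw [h] at hW'
      exact absurd hW' (not_lt.mpr zero_le)
    obtain ⟨j⟩ := hne
    rw [← hchain j]
    have h1 : (chain I M N W j : Set (Equiv.Perm N)) ⊆ G := by
      rw [hG]
      exact le_iSup (fun j => chain I M N W j) j
    exact mk_le_mk_of_subset h1

omit [LinearOrder W] [WellFoundedLT W] hI hM hN hW hW' in
theorem commute_swaps [Infinite M] [DecidableEq M] (g : Equiv.Perm M)
    (h : ∀ a b, Equiv.swap a b * g = g * Equiv.swap a b) : g = 1 := by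
  apply Equiv.ext
  intro a
  by_contra hga
  change g a ≠ a at hga
  obtain ⟨b, hb⟩ := Infinite.exists_notMem_finset ({a, g a} : Finset M)
  rw [Finset.mem_insert, Finset.mem_singleton, not_or] at hb
  have h1 := Equiv.ext_iff.mp (h a b) a
  rw [Equiv.Perm.mul_apply, Equiv.Perm.mul_apply, Equiv.swap_apply_left,
    Equiv.swap_apply_of_ne_of_ne hga (Ne.symm hb.2)] at h1
  exact hb.1 (g.injective h1).symm

theorem card_aut (G : Subgroup (Equiv.Perm N)) (hG : G = ⨆ j, chain I M N W j)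
    (hWM : #W ≤ #M) : #(MulAut G) ≤ #G := by
  classical
  have hMinf := inf_M hI hM
  have : Infinite M := infinite_iff.mpr hMinf
  have hgood := chain_good hI hM hN hW
  have hmono := chain_mono hI hM hN hW
  have hGj : ∀ j, chain I M N W j ≤ G := fun j => by rw [hG]; exact le_iSup _ j
  have hmemG : ∀ g ∈ G, ∃ j, g ∈ chain I M N W j := fun g hg =>
    mem_G hI hM hN hW hW' (by rwa [hG] at hg)
  have e : ∀ j, chain I M N W j ≃* Equiv.Perm M := fun j => (hgood j).iso.some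
  -- the small set
  let δ : W × M × M → G := fun i =>
    ⟨((e i.1).symm (Equiv.swap i.2.1 i.2.2) : chain I M N W i.1), hGj _ (Subtype.mem _)⟩
  have hfix : ∀ γ : MulAut G, (∀ i, γ (δ i) = δ i) → γ = 1 := by
    intro γ hγ
    apply MulEquiv.ext
    intro x
    obtain ⟨j₀, hj₀⟩ := hmemG (x : Equiv.Perm N) x.2
    obtain ⟨j₁, hj₁⟩ := hmemG (γ x * x⁻¹ : G) (γ x * x⁻¹).2
    obtain ⟨j, hj⟩ : ∃ j, j = max j₀ j₁ := ⟨_, rfl⟩
    have hx : (x : Equiv.Perm N) ∈ chain I M N W j := hmono (by rw [hj]; exact le_max_left _ _) hj₀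
    have hc : ((γ x * x⁻¹ : G) : Equiv.Perm N) ∈ chain I M N W j :=
      hmono (by rw [hj]; exact le_max_right _ _) hj₁
    have key : ∀ a b, δ (j, a, b) * (γ x * x⁻¹) = (γ x * x⁻¹) * δ (j, a, b) := by
      intro a b
      have h1 : x⁻¹ * δ (j, a, b) * x =
          δ (j, (e j ⟨x, hx⟩)⁻¹ a, (e j ⟨x, hx⟩)⁻¹ b) := by
        apply Subtype.ext
        change (x : Equiv.Perm N)⁻¹ * ((e j).symm (Equiv.swap a b) : chain I M N W j) * x =
          ((e j).symm (Equiv.swap ((e j ⟨x, hx⟩)⁻¹ a) ((e j ⟨x, hx⟩)⁻¹ b)) : chain I M N W j)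
        have h2 : (⟨x, hx⟩ : chain I M N W j)⁻¹ * (e j).symm (Equiv.swap a b) * ⟨x, hx⟩ =
            (e j).symm (Equiv.swap ((e j ⟨x, hx⟩)⁻¹ a) ((e j ⟨x, hx⟩)⁻¹ b)) := by
          rw [MulEquiv.eq_symm_apply, map_mul, map_mul, map_inv, MulEquiv.apply_symm_apply,
            mul_assoc, Equiv.swap_mul_eq_mul_swap, inv_mul_cancel_left]
        exact congrArg Subtype.val h2
      have h3 := congrArg γ h1
      rw [map_mul, map_mul, map_inv, hγ, hγ, ← h1] at h3
      have h4 : δ (j, a, b) = γ x * (x⁻¹ * δ (j, a, b) * x) * (γ x)⁻¹ := by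
        rw [← h3]
        group
      calc δ (j, a, b) * (γ x * x⁻¹) = γ x * (x⁻¹ * δ (j, a, b) * x) * (γ x)⁻¹ * (γ x * x⁻¹) := by
            rw [← h4]
        _ = (γ x * x⁻¹) * δ (j, a, b) := by group
    have h5 : e j ⟨(γ x * x⁻¹ : G), hc⟩ = 1 := by
      apply commute_swaps
      intro a b
      have h6 : (e j).symm (Equiv.swap a b) * (⟨(γ x * x⁻¹ : G), hc⟩ : chain I M N W j) =
          ⟨(γ x * x⁻¹ : G), hc⟩ * (e j).symm (Equiv.swap a b) := by
        apply Subtype.ext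
        exact congrArg (fun z : G => (z : Equiv.Perm N)) (key a b)
      have h7 := congrArg (e j) h6
      rw [map_mul, map_mul, MulEquiv.apply_symm_apply] at h7
      exact h7
    have h6 : (⟨(γ x * x⁻¹ : G), hc⟩ : chain I M N W j) = 1 :=
      (e j).injective (h5.trans (map_one _).symm)
    have h7 : ((γ x * x⁻¹ : G) : Equiv.Perm N) = 1 := congrArg Subtype.val h6
    have h8 : γ x * x⁻¹ = 1 := Subtype.ext h7
    exact mul_inv_eq_one.mp h8
  have hinj : Function.Injective fun (α : MulAut G) (i : W × M × M) => α (δ i) := by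
    intro α β hαβ
    have h1 : α⁻¹ * β = 1 := by
      apply hfix
      intro i
      have h2 : α (δ i) = β (δ i) := congrFun hαβ i
      rw [MulAut.mul_apply, ← h2, MulAut.inv_apply_self]
    exact (inv_mul_eq_one.mp h1)
  refine (mk_le_of_injective hinj).trans ?_
  have hidx : #(W × M × M) ≤ #M := by
    rw [mk_prod, mk_prod]
    simp only [lift_id]
    rw [mul_eq_self hMinf]
    exact (mul_le_mul' hWM le_rfl).trans (mul_eq_self hMinf).le
  have hGcard := card_G hI hM hN hW hW' G hG hWM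
  calc #((W × M × M) → G) = #G ^ #(W × M × M) := by rw [mk_pi]; simp
    _ ≤ #G ^ #M := power_le_power_left (by rw [hGcard]; exact (power_pos _ two_pos).ne') hidx
    _ = #G := by rw [hGcard, ← power_mul, mul_eq_self hMinf]

end

/-- For every infinite cardinal `κ` there is a `κ`-existentially closed (even
`κ⁺`-existentially closed) group `G` of cardinality `λ = 2 ^ 2 ^ κ > κ` with
`|Aut G| ≤ λ < 2 ^ λ`. -/
theorem result (κ : Cardinal.{u}) (hκ : ℵ₀ ≤ κ) : ∃ (G : Type u) (_ : Group G),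
    KExistentiallyClosed κ G ∧ KExistentiallyClosed (Order.succ κ) G ∧
    #G = (2 : Cardinal.{u}) ^ ((2 : Cardinal.{u}) ^ κ) ∧ κ < #G ∧ #(MulAut G) ≤ #G ∧
    #(MulAut G) < (2 : Cardinal.{u}) ^ #G := by
  let I : Type u := κ.out
  let M : Type u := Set I
  let N : Type u := Set (Equiv.Perm M)
  let W : Type u := (Order.succ κ).ord.ToType
  have hIκ : #I = κ := mk_out κ
  have hI : ℵ₀ ≤ #I := by rw [hIκ]; exact hκ
  have hM : #M = 2 ^ #I := mk_set
  have hN : #(Equiv.Perm M) < #N := by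
    change #(Equiv.Perm M) < #(Set (Equiv.Perm M))
    rw [mk_set]
    exact cantor _
  have hW : ∀ j : W, #(Set.Iio j) ≤ #I := by
    intro j
    rw [hIκ, ← Order.lt_succ_iff]
    have h1 := mk_Iio_lt j (by simp [W])
    rwa [mk_ord_toType] at h1
  have hWcard : #W = Order.succ κ := mk_ord_toType _
  have hW' : #I < #W := by rw [hIκ, hWcard]; exact Order.lt_succ κ
  have hWM : #W ≤ #M := by
    rw [hWcard, hM, hIκ]
    exact Order.succ_le_of_lt (cantor κ)
  have hkec := kec hI hM hN hW hW' (⨆ j, chain I M N W j) rfl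
  have hcard := card_G hI hM hN hW hW' (⨆ j, chain I M N W j) rfl hWM
  have haut := card_aut hI hM hN hW hW' (⨆ j, chain I M N W j) rfl hWM
  rw [hIκ] at hkec
  rw [hM, hIκ] at hcard
  refine ⟨(⨆ j, chain I M N W j : Subgroup (Equiv.Perm N)), inferInstance, ?_, hkec, hcard, ?_,
    haut, haut.trans_lt (cantor _)⟩
  · intro X S hS
    exact hkec X S (hS.trans (Order.lt_succ κ))
  · rw [hcard]
    exact (cantor κ).trans (cantor _)

end Pool.Agent.Results.MP_cb6149_al.FewAutomorphisms
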